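import Pool.Agent.GEN.All

/-!
# The f-polynomial detects the unknot among Conway combinations of alternating tangles

The proof is in `Pool/Agent/GEN/`, `Pool/Agent/LSG/`, `Pool/Agent/LSP/`, `Pool/Agent/ALT/`,
`Pool/Agent/ALZ/`, `Pool/Agent/ALS/` and `Pool/Agent/ARB/`. The definitions used in the statement are
in `Pool/Agent/GEN/Statement.lean` (alternating tangles and their combinations),
`Pool/Agent/ARB/Defs.lean` (words in Morse position, isotopy, rational tangles) and
`Pool/Agent/Helper2/Diagram.lean` (link diagrams, the Kauffman bracket and the f-polynomial).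
-/

set_option autoImplicit false

namespace Pool.Agent.Results.MP_42db45_gt.AlgAlternating

open Pool.Agent.Helper2 Pool.Agent.ARB Pool.GEN

/-- Let `D` be a diagram of an oriented link which is isotopic (Reidemeister moves and planar
isotopy) to the closure of a tangle `T` which is a combination by sums and rotations of crossings
and leaves, every leaf being any alternating tangle with four ends. If `f_D = 1`, or only `f_D = 1`
modulo `(A^4 + 1)^3`, then `D` is isotopic to the circle, or `f_D` is not `1` and `D` is isotopic to
the closure of one alternating tangle, with at most as many crossings as one of the leaves of `T`,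
and one rational tangle, with 1-1 tangles on the four strands between them. In particular `f_D = 1`
implies that `D` is isotopic to the circle. -/
theorem result (D : List Slice) (hD : IsDiagram D) (T : Comb) (hl : ∀ w, T.Leaf w → AltTangle w)
    (hT : Iso 0 (forget D) (NW T.word)) (hf : (LaurentPolynomial.T 4 + 1) ^ 3 ∣ fPoly D - 1) :
    Iso 0 (forget D) O1 ∨ (fPoly D ≠ 1 ∧ ∃ w0 w, T.Leaf w0 ∧ AltTangle w ∧ crs w ≤ crs w0 ∧
      OneLeaf (forget D) w) := by
  rw [← T.tree_word] at hT
  rcases all_FINL D hD T.tree
    (fun w hw => ⟨(hl w ((T.tree_leaf w).1 hw)).ok, (hl w ((T.tree_leaf w).1 hw)).alt⟩) hT hf with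
    h | ⟨h1, w0, w, h2, h3, h4, h5⟩
  · exact Or.inl h
  · rw [← crs_eq, ← crs_eq] at h4
    exact Or.inr ⟨h1, w0, w, (T.tree_leaf w0).1 h2, ⟨h3.1, h3.2⟩, h4, h5⟩

end Pool.Agent.Results.MP_42db45_gt.AlgAlternating
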