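import Pool.Agent.FB.Z1.All
import Pool.Agent.FB.W9.All
import Pool.Agent.FB.AX.All
import Pool.Agent.FB.Y1.Many

/-!
# MP_42db45_gt: closed 4-braids which the polynomial distinguishes from the unknot

A word in the generators of the braid group on four strands is written as
`σ₂^b₁ σ₁^a₁ σ₃^c₁ ⋯ σ₂^b_m σ₁^a_m σ₃^c_m` and given by the list of the triples `(a_i, c_i, b_i)`;
`closure β` is the closed braid, a diagram of a link (`Pool/Agent/FB/Defs.lean`, on top of
`Pool/Agent/RU/Defs.lean`: diagrams, the Kauffman bracket and the f-polynomial `normalized`).  Every braid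
word on four strands is of this form (exponents may be zero).

`Detected N` is a class of words; for suitable numbers `N k` the polynomial of the closure of every word
in the class is different from `1`, the polynomial of the unknot.
-/

set_option autoImplicit false

namespace Pool.Agent.Results.MP_42db45_gt.FourBraids

open LaurentPolynomial Pool.RU Pool.Agent.FB Pool.Agent.FB.AX

/-- the sum of all exponents of `σ₂^b₁ σ₁^a₁ σ₃^c₁ ⋯ σ₂^b_m σ₁^a_m σ₃^c_m` -/
def expSum (β : List (ℤ × ℤ × ℤ)) : ℤ := (β.map fun t => t.1 + t.2.1 + t.2.2).sum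

/-- The Alexander polynomial (Burau's formula): `D` is symmetric, and the reduced Burau matrix `ψ` of `β`
has `det (1 - ψ) = t ^ k (1 + t + t² + t³) D` with `2 k = e - 3`. -/
def IsAlexander (β : List (ℤ × ℤ × ℤ)) (D : ℤ[T;T⁻¹]) : Prop :=
  LaurentPolynomial.invert D = D ∧ ∃ k : ℤ, 2 * k = expSum β - 3 ∧
    (1 - burau (word β)).det = T k * (1 + T 1 + T 2 + T 3) * D

/-- All syllables of the word `σ₂^b₁ σ₁^a₁ σ₃^c₁ ⋯ σ₂^b_m σ₁^a_m σ₃^c_m` have length at least `n`; a
triple `t` of the list `β` is `(a, c, b)`. -/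
structure LongSyllables (n : ℤ) (β : List (ℤ × ℤ × ℤ)) : Prop where
  /-- the syllables of `σ₂` -/
  sigma2 : ∀ t ∈ β, n ≤ |t.2.2|
  /-- the syllables of `σ₁`; one exponent of a block `σ₁^a σ₃^c` may be zero -/
  sigma1 : ∀ t ∈ β, t.1 = 0 ∨ n ≤ |t.1|
  /-- the syllables of `σ₃` -/
  sigma3 : ∀ t ∈ β, t.2.1 = 0 ∨ n ≤ |t.2.1|
  /-- not both exponents of a block `σ₁^a σ₃^c` are zero -/
  block : ∀ t ∈ β, t.1 ≠ 0 ∨ t.2.1 ≠ 0

/-- The different lengths of the syllables (and `0`, if an exponent is `0`). -/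
def lengths (β : List (ℤ × ℤ × ℤ)) : Finset ℕ :=
  (β.flatMap fun t => [t.1.natAbs, t.2.1.natAbs, t.2.2.natAbs]).toFinset

/-- There are a block `σ₁^a σ₃^(-a)`, a block `σ₁^a σ₃^c` with `a, c > 0` and a block with
`a, c < 0`. -/
def AllKinds (β : List (ℤ × ℤ × ℤ)) : Prop :=
  (∃ t ∈ β, t.1 + t.2.1 = 0) ∧ (∃ t ∈ β, 0 < t.1 ∧ 0 < t.2.1) ∧ ∃ t ∈ β, t.1 < 0 ∧ t.2.1 < 0

/-- All exponents have absolute value at least `5`; and if `|a_i - c_i| ≤ 1` (`m ≥ 2`), then one of the
neighbours `b_i`, `b_(i+1)` of `σ₁^a_i σ₃^c_i` has the sign of `a_i` (which is the sign of `c_i`). -/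
structure AllFive (β : List (ℤ × ℤ × ℤ)) : Prop where
  /-- the exponents -/
  five : ∀ t ∈ β, 5 ≤ |t.1| ∧ 5 ≤ |t.2.1| ∧ 5 ≤ |t.2.2|
  /-- the near ties; the cyclic word contains `σ₂^b σ₁^a σ₃^c σ₂^b'`, `t = (a, c, b)`, `t' = (_, _, b')` -/
  ties : ∀ t t' R, β ~r t :: t' :: R → |t.1 - t.2.1| ≤ 1 → 0 < t.1 * t.2.2 ∨ 0 < t.1 * t'.2.2

/-- The class of 4-braid words; `N k` are natural numbers. -/
inductive Detected (N : ℕ → ℕ) (β : List (ℤ × ℤ × ℤ)) : Prop
  /-- the sum of the exponents is not `±1`, `±3`, `±5` -/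
  | exponents : expSum β ∉ ({1, -1, 3, -3, 5, -5} : Set ℤ) → Detected N β
  /-- it is `±1` or `±3`, and the Alexander polynomial is not `1` -/
  | alexander : |expSum β| ≤ 3 → ¬ IsAlexander β 1 → Detected N β
  /-- it is `±5`, and the Alexander polynomial is not `- t³ + 2 t² + t - 3 + t⁻¹ + 2 t⁻² - t⁻³` -/
  | alexander_five : |expSum β| = 5 →
      ¬ IsAlexander β (-T 3 + 2 * T 2 + T 1 - 3 + T (-1) + 2 * T (-2) - T (-3)) → Detected N β
  /-- all syllables have length at least `n ≥ N k`, and there are not blocks of all three kinds, or at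
  most `k` different lengths are larger than `k n` -/
  | long (k n : ℕ) : N k ≤ n → LongSyllables n β →
      (AllKinds β → ((lengths β).filter fun a => k * n < a).card ≤ k) → Detected N β
  /-- `AllFive` -/
  | five : AllFive β → Detected N β

/-- There are numbers `N k` such that the polynomial of the closure of every 4-braid word in the class
`Detected N`, with any orientation of the components, is not `1`. -/
theorem result : ∃ N : ℕ → ℕ, ∀ β : List (ℤ × ℤ × ℤ), Detected N β →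
    ∀ o, (closure β).IsOrientation o → (closure β).normalized o ≠ 1 := by
  obtain ⟨N₆, h6p, h6⟩ := Z1.thm_FourBraids6
  choose M hMp hM using fun k : ℕ => Y1.many (k + 1) (Nat.succ_pos k)
  refine ⟨fun k => max (N₆ + 1) (M k), fun β hβ o ho h1 => ?_⟩
  obtain ⟨hodd, h5, hdet⟩ := thm_Alex β o ho h1
  have hne : β ≠ [] := by
    rintro rfl
    have h0 : ¬ Odd (W8.tot []) := by decide
    exact h0 hodd
  have he : expSum β = W8.tot β := rfl
  have hk : 2 * ((expSum β - 3) / 2) = expSum β - 3 := by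
    obtain ⟨j, hj⟩ := hodd
    rw [he, hj]
    omega
  have hT : ∀ D : ℤ[T;T⁻¹], T ((expSum β - 3) / 2) * (1 + T 1) * (1 + T 2) * D =
      T ((expSum β - 3) / 2) * (1 + T 1 + T 2 + T 3) * D := by
    intro D
    have h3 : (T 3 : ℤ[T;T⁻¹]) = T 1 * T 2 := by
      rw [← T_add]
      rfl
    rw [h3]
    ring
  rcases hβ with h | ⟨h, hA⟩ | ⟨h, hA⟩ | ⟨k, n, hn, hL, hk'⟩ | h5'
  · apply h
    rw [← he] at hodd h5
    obtain ⟨j, hj⟩ := hodd
    rw [abs_le] at h5
    simp only [Set.mem_insert_iff, Set.mem_singleton_iff]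
    omega
  · refine hA ⟨map_one _, _, hk, ?_⟩
    rw [← hT, hdet, ← he]
    unfold alex
    rw [if_pos h]
  · refine hA ⟨?_, _, hk, ?_⟩
    · simp only [map_sub, map_add, map_neg, map_mul, map_ofNat, LaurentPolynomial.invert_T]
      norm_num
      ring
    · rw [← hT, hdet, ← he]
      unfold alex
      rw [if_neg (by omega)]
  · have hn6 : N₆ < n := lt_of_lt_of_le (Nat.lt_succ_self _) ((le_max_left _ _).trans hn)
    have hnM : M k ≤ n := (le_max_right _ _).trans hn
    have hlong : ∀ t ∈ β, (n : ℤ) ≤ |t.2.2| ∧ (t.1 = 0 ∨ (n : ℤ) ≤ |t.1|) ∧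
        (t.2.1 = 0 ∨ (n : ℤ) ≤ |t.2.1|) ∧ ¬ (t.1 = 0 ∧ t.2.1 = 0) := fun t ht =>
      ⟨hL.sigma2 t ht, hL.sigma1 t ht, hL.sigma3 t ht, fun h2 => by
        rcases hL.block t ht with h3 | h3
        · exact h3 h2.1
        · exact h3 h2.2⟩
    have hall : AllKinds β := by
      by_contra hc
      refine h6 n hn6 β hne hlong ?_ o ho h1
      unfold AllKinds at hc
      by_cases c1 : ∃ t ∈ β, t.1 + t.2.1 = 0
      · by_cases c2 : ∃ t ∈ β, 0 < t.1 ∧ 0 < t.2.1
        · right
          right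
          intro t ht h3
          exact hc ⟨c1, c2, t, ht, h3⟩
        · right
          left
          intro t ht h3
          exact c2 ⟨t, ht, h3⟩
      · left
        intro t ht h3
        exact c1 ⟨t, ht, h3⟩
    have hc := hk' hall
    obtain ⟨-, ⟨u, hu, hu1, hu2⟩, -⟩ := hall
    refine hM k n hnM β hlong ⟨u, hu, hu1.ne', hu2.ne'⟩ ((lengths β).filter fun a => k * n < a)
      (fun a ha hka => ?_) ?_ o ho h1
    · obtain ⟨-, t, ht, h⟩ := ha
      rw [Finset.mem_filter]
      refine ⟨?_, lt_of_le_of_lt (Nat.mul_le_mul_right n (Nat.le_succ k)) hka⟩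
      unfold lengths
      rw [List.mem_toFinset, List.mem_flatMap]
      refine ⟨t, ht, ?_⟩
      rcases h with rfl | rfl | rfl <;> simp
    · omega
  · exact W9.main β hne h5'.five h5'.ties o ho h1

end Pool.Agent.Results.MP_42db45_gt.FourBraids
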