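import Pool.Agent.NHT.Final23

/-!
# MP_42db45_gt: diagrams with long twist regions

`g` is the Gauss code of the shadow and `e` gives the signs of the crossings of a diagram `D` of a
classical or virtual knot.  Two crossings are in the same twist class if they are interlaced with the
same other crossings (for instance: the crossings of a twist region); `S` contains one crossing of
every twist class of crossings which are interlaced with some crossing, and `k` is the number of these
classes.  The twist number `a i` of a class is the sum of the signs of its crossings, times `-1` if they
are interlaced with each other.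

For a set `J` of classes, `D_J` is the diagram which is obtained when one crossing of every class in `J`
is cut (`cut`), and `c(J)` is the number of components of the link `D_J` (`cutComps`).  The vertices of
the graph of `J` are the connected parts of the diagram `D_J`, its edges are the classes in `J`
(`HasCycle`).  Two unions of cycles of the graph of all classes are close if their total twist numbers
differ by less than `N = 2 (B + 2) (k + 1)`.  A subset `L₀` of `J` is isolated if `L' ∩ J = L₀` for all
close `L`, `L'` with `L ∩ J = L₀`.  Let `s = N + ∑ |a j|`, with the sum over the classes which are not in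
`J`, and `t = (|J| + 1)! s`.
-/

set_option autoImplicit false

namespace Pool.Agent.Results.MP_42db45_gt.HighlyTwisted

open Pool.Agent.GaussJones Pool.Agent.NHT.Text

/-- Let `D` be a diagram of a classical or virtual knot with `k ≥ 1` twist classes.  The polynomial `f` of
`D` has more than `B` terms, and `f ≠ 1` if `B ≥ 1`, in the following cases.

(0) The total twist number of each nonempty union of cycles of the graph of all classes is at least `N` in
absolute value.

Or there is a nonempty set `J` of classes with one of the following properties.

(1) `c(J) ≤ |J|`, and some isolated subset `L₀` of `J` has an even number of ends on each component of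
`D_J`; for instance: `D_J` is a diagram of a knot, and `|a i| ≥ s` for all `i` in `J`.

(2) Either the classes outside of `J` contain no cycle of the graph of all classes (for instance: all
classes are in `J`) or `det D_J ≠ 0`, and one of the following holds: some union of cycles of the graph of
`J` is isolated; or the absolute values `|a i|` lie between `m` and `m + m / |J|` for all `i` in `J`, where
`m ≥ 2 s`; or the classes in `J` with `|a i| < t` contain no cycle of the graph of `J`, and each block of
this graph has at most `9` classes, or a cycle rank of at most `5`, or is series-parallel, or its classes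
with `a i ≥ t` (or those with `a i ≤ - t`) connect its vertices and have at most one bridge (for instance:
all but at most two of its classes have `a i ≥ t`; the graph of `J` has no cut of two edges). -/
theorem result {n : ℕ} (g : Code n) (e : Fin n → Bool) (S : Finset (Fin n))
    (hS : Transversal (Interlaced g) S) (hne : S.Nonempty) (B N : ℕ)
    (hN : N = 2 * (B + 2) * (S.card + 1)) (a : Fin n → ℤ) (ha : a = twist (Interlaced g) e)
    (h : (∀ L ⊆ S, L.Nonempty → CycleSet (HasCycle g ∅) L → (N : ℤ) ≤ |∑ i ∈ L, a i|) ∨
      ∃ J ⊆ S, J.Nonempty ∧ ∃ s t : ℤ, s = N + ∑ j ∈ S \ J, |a j| ∧ t = (J.card + 1).factorial * s ∧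
        ((cutComps g J ≤ J.card ∧
            ∃ L₀ ⊆ J, EvenEnds g J L₀ ∧ Isolated S J (HasCycle g ∅) a N L₀) ∨
          (cutComps g J = 1 ∧ ∀ i ∈ J, s ≤ |a i|) ∨
          ((¬ HasCycle g ∅ (S \ J) ∨ cutDet g e J ≠ 0) ∧
            ((∃ L₀ ⊆ J, CycleSet (HasCycle g (S \ J)) L₀ ∧ Isolated S J (HasCycle g ∅) a N L₀) ∨
              (∃ m : ℤ, 2 * s ≤ m ∧ ∀ i ∈ J, m ≤ |a i| ∧ J.card * (|a i| - m) ≤ m) ∨
              (¬ HasCycle g (S \ J) (J.filter fun i => |a i| < t) ∧
                GoodBlocks J (HasCycle g (S \ J)) (cutRow (Interlaced g)) a t))))) :
    B < terms (fPoly g e) ∧ (1 ≤ B → fPoly g e ≠ 1) := by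
  subst hN ha
  refine Pool.Agent.NHT.knotF23 g e S hS hne B ?_
  rcases h with h | ⟨J, hJ, hJne, s, t, rfl, rfl, h⟩
  · exact Or.inl h
  · exact Or.inr ⟨J, hJ, hJne, h⟩

end Pool.Agent.Results.MP_42db45_gt.HighlyTwisted
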