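import Pool.Agent.FHP.RelL

/-!
# MP_42db45_gt: the relations between the twist numbers

`g` is the Gauss code of the shadow and `e` gives the signs of the crossings of a diagram of a
classical or virtual knot.  Two crossings are in the same twist class if they are interlaced with the
same other crossings (for instance: the crossings of a twist region); `S` contains one crossing of
every twist class (of crossings which are interlaced with some crossing), and `k` is the number of
these classes, with the twist numbers `c_i`.  A vector `d` with an entry `-1`, `0` or `1` for every
class is short (for `N`) if `∑ d_i c_i` is less than `N` in absolute value.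

The vertices of the graph `Γ` are the closed curves which are left when all twist regions are cut, its
edges are the crossings.  The number of the curves is `loops g (cutAll (Interlaced g))`, so that the
cycle rank of `Γ` is `r = n + 1 - loops g (cutAll (Interlaced g))`.
-/

set_option autoImplicit false

namespace Pool.Agent.Results.MP_42db45_gt.Relations

open Pool.Agent.GaussJones Pool.Agent.FHP Pool.Agent.EQT Pool.Agent.SPT

/-- The twist numbers of a diagram with `k ≥ 1` twist classes satisfy many short relations: let `f` have
at most `B` odd coefficients (for instance `f = 1`, `B = 1`), and `N = 2 (B + 2) (k + 1)`.  Then the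
weights modulo `2` which are orthogonal to all short vectors form a totally isotropic space for the cut
matrix, and `m` short vectors are linearly independent modulo `2` if `6 m ≤ k + 6` or `2 m ≤ r + 1`:
more than `k / 6`, and at least `r / 2` of them. -/
theorem result {n : ℕ} (g : Code n) (e : Fin n → Bool) (S : Finset (Fin n))
    (hS : Transversal (Interlaced g) S) (hne : S.Nonempty) (B : ℕ)
    (hB : oddCount (fPoly g e) ≤ B) :
    Isotropic (Interlaced g) e S (2 * (B + 2) * (S.card + 1)) ∧
      ∀ m : ℕ, (6 * m ≤ S.card + 6 ∨ 2 * m + loops g (cutAll (Interlaced g)) ≤ n + 2) →
        Independent (Interlaced g) e S (2 * (B + 2) * (S.card + 1)) m :=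
  knotL g e S B hS hne hB

end Pool.Agent.Results.MP_42db45_gt.Relations
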